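import Pool.Agent.H40.Marg

set_option autoImplicit false

namespace Pool.Agent.Results.MP_2f9b3f_lc.ContextualVertex

open Pool.Agent.H40.Marg

/-- Some extreme point of a marginal-model polytope has an entropy function that is not the
restriction of a polymatroid. -/
theorem result : ∃ (n : ℕ) (M : Set (Finset (Fin n))) (k : Fin n → ℕ),
    IsScenario M ∧ (∀ i, 0 < k i) ∧
    ∃ p ∈ Set.extremePoints ℝ (Models M (fun i => Fin (k i))),
      ¬ ∃ f : Finset (Fin n) → ℝ, IsPolymatroid f ∧ ∀ S : M, f S.1 = entropy (p S) :=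
  ⟨5, MM, fun _ => 3, MM_scen, fun _ => by norm_num, pp, pp_extreme, contextual⟩

end Pool.Agent.Results.MP_2f9b3f_lc.ContextualVertex
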